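import Pool.Agent.helper71.EP.SpecE
import Pool.Agent.helper95.TG.WT4of
import Pool.Agent.helper61.TG.WT2of
import Pool.Agent.helper74.TG.SW

/-!
# EAC: the weight is close to the model, with larger exponents
-/

set_option autoImplicit false

namespace Pool.Agent.EP

open Finset ArithmeticFunction
open scoped Real
open Pool.Agent.helper74.TG

/-- The weight is close to the model (copy of `fw_close_of` with other numbers). -/
theorem EAC_close (m c : ℕ)
    (fw_major : ∃ N₀ : ℕ, ∀ N : ℕ, N₀ ≤ N →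
      ∀ a q : ℕ, 0 < q → (q : ℝ) ≤ Real.log N ^ 234 → Nat.Coprime a q →
      ∀ β : ℝ, |β| ≤ Real.log N ^ 234 / N → ∀ u : ℕ, u ≤ N →
      ‖∑ x ∈ Ioc 0 u, (fw m c x : ℂ) * ee (x * (-(a / q) + β)) -
        Hc m c a q * ∑ x ∈ Ioc 0 u, ee (x * β)‖ ≤ N / Real.log N ^ 42)
    (hm : 0 < m) (hc : Nat.Coprime c m) : ∃ N₀ : ℕ, ∀ N : ℕ, N₀ ≤ N →
    ∀ α : ℝ, ∀ u : ℕ, u ≤ N →
    ‖∑ x ∈ Ioc 0 u, ((fw m c x : ℂ) - gm m c ⌊Real.log N ^ 96⌋₊ x) * ee (x * α)‖
      ≤ N / Real.log N ^ 41 := by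
  obtain ⟨N₁, h₁⟩ := fw_major
  obtain ⟨N₂, h₂⟩ := fw_minor 42 m c hm hc
  obtain ⟨N₃, h₃⟩ := h95_log_pow 426 2 (by norm_num)
  obtain ⟨N₄, h₄⟩ := h95_log_ge 2
  refine ⟨max (max N₁ N₂) (max N₃ (max N₄ 1)), fun N hN α u hu => ?_⟩
  have hN1 : N₁ ≤ N := by omega
  have hN2 : N₂ ≤ N := by omega
  have hN3 : N₃ ≤ N := by omega
  have hN4 : N₄ ≤ N := by omega
  have hN5 : 1 ≤ N := by omega
  have hNr : (0 : ℝ) < N := by exact_mod_cast hN5
  set L : ℝ := Real.log N with hL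
  have hL2 : 2 ≤ L := h₄ N hN4
  have hL426 : 2 * L ^ 426 ≤ N := h₃ N hN3
  have hL0 : 0 < L := by linarith
  have hL1 : 1 ≤ L := by linarith
  set Q : ℕ := ⌊L ^ 96⌋₊ with hQ
  have hQL : (Q : ℝ) ≤ L ^ 96 := Nat.floor_le (by positivity)
  have hQ1 : 1 ≤ Q := by
    rw [hQ, Nat.one_le_floor_iff]
    exact one_le_pow₀ hL1
  have hQ2 : (Q : ℝ) ^ 2 ≤ L ^ 192 := by
    calc (Q : ℝ) ^ 2 ≤ (L ^ 96) ^ 2 := by gcongr
      _ = L ^ 192 := by rw [← pow_mul]
  by_cases hM : ∃ (a : ℤ) (q : ℕ), 0 < q ∧ q ≤ Q ∧ IsCoprime a (q : ℤ) ∧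
      |α + a / q| ≤ L ^ 234 / N
  · -- major arcs
    obtain ⟨a, q, hq, hqQ, hcop, hβ⟩ := hM
    have hq0 : (q : ℤ) ≠ 0 := by exact_mod_cast hq.ne'
    have hqr : (q : ℝ) ≠ 0 := by exact_mod_cast hq.ne'
    obtain ⟨b, hb⟩ : ∃ b : ℕ, (b : ℤ) = a % q :=
      ⟨(a % q).toNat, Int.toNat_of_nonneg (Int.emod_nonneg a hq0)⟩
    have hbq : b < q := by
      have : (b : ℤ) < q := by
        rw [hb]; exact Int.emod_lt_of_pos a (by exact_mod_cast hq)
      exact_mod_cast this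
    have hab : a = b + (a / q) * q := by
      rw [hb]
      have := Int.emod_add_mul_ediv a q
      linarith [mul_comm (q : ℤ) (a / q)]
    set k : ℤ := a / q with hk
    have hbcop : Nat.Coprime b q := by
      rw [← Nat.isCoprime_iff_coprime]
      have h5 : (b : ℤ) = a + (-k) * q := by linarith
      rw [h5]
      exact IsCoprime.add_mul_right_left hcop (-k)
    set β : ℝ := α + a / q with hβdef
    have hα : α = (-(b / q : ℝ) + β) + ((-k : ℤ) : ℝ) := by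
      rw [hβdef]
      have : (a : ℝ) = b + k * q := by exact_mod_cast hab
      rw [this]
      push_cast
      field_simp
      ring
    have hsum : ∀ F : ℕ → ℂ, ∑ x ∈ Ioc 0 u, F x * ee (x * α) =
        ∑ x ∈ Ioc 0 u, F x * ee (x * (-(b / q : ℝ) + β)) := by
      intro F
      refine sum_congr rfl fun x _ => ?_
      conv_lhs => rw [hα]
      rw [h95_ee_shift]
    have hf := h₁ N hN1 b q hq (by
      calc (q : ℝ) ≤ Q := by exact_mod_cast hqQ
        _ ≤ L ^ 96 := hQL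
        _ ≤ L ^ 234 := pow_le_pow_right₀ hL1 (by norm_num)) hbcop β hβ u hu
    set r₀ : Σ _ : ℕ, ℕ := ⟨q, b⟩ with hr₀
    have hr₀m : r₀ ∈ Fa Q := h95_mem_Fa.2 ⟨⟨hq, hqQ⟩, hbq, hbcop⟩
    have hg : ‖∑ r ∈ (Fa Q).erase r₀, Hc m c r.2 r.1 *
        ∑ x ∈ Ioc 0 u, ee ((x : ℝ) * ((-(b / q : ℝ) + β) + r.2 / r.1))‖ ≤
        (Q : ℝ) ^ 2 * (1 / (2 * (1 / (2 * L ^ 192)))) := by
      refine h95_sub_bound hm (erase_subset _ _) (by positivity) fun r hr k' => ?_
      have hr1 := h95_mem_Fa.1 (mem_of_mem_erase hr)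
      have hr2 : ¬ (r.1 = q ∧ r.2 = b) := by
        rintro ⟨e1, e2⟩
        refine (ne_of_mem_erase hr) ?_
        rw [hr₀]
        exact Sigma.ext e1 (heq_of_eq e2)
      have h6 := h95_frac hq hqQ hbq hbcop hr1.1.1 hr1.1.2 hr1.2.1 hr1.2.2 hr2 k'
      have h7 : 1 / L ^ 192 ≤ 1 / (Q : ℝ) ^ 2 := by
        refine one_div_le_one_div_of_le ?_ hQ2
        have : (0 : ℝ) < Q := by exact_mod_cast hQ1
        positivity
      have h8 : L ^ 234 / N ≤ 1 / (2 * L ^ 192) := by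
        rw [div_le_div_iff₀ hNr (by positivity)]
        have e1 : L ^ 234 * (2 * L ^ 192) = 2 * L ^ 426 := by ring
        rw [e1, one_mul]
        exact hL426
      have h9 : -(b / q : ℝ) + β + r.2 / r.1 - k' = (-(b / q : ℝ) + r.2 / r.1 - k') + β := by ring
      rw [h9]
      have h10 : |(-(b / q : ℝ) + r.2 / r.1 - k')| - |β| ≤
          |(-(b / q : ℝ) + r.2 / r.1 - k') + β| := by
        have := abs_sub_abs_le_abs_sub (-(b / q : ℝ) + r.2 / r.1 - k') (-β)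
        rw [abs_neg, sub_neg_eq_add] at this
        exact this
      have h11 : 1 / L ^ 192 - 1 / (2 * L ^ 192) = 1 / (2 * L ^ 192) := by
        field_simp
        norm_num
      linarith
    have hG : ∑ x ∈ Ioc 0 u, gm m c Q x * ee (x * (-(b / q : ℝ) + β)) =
        Hc m c b q * ∑ x ∈ Ioc 0 u, ee ((x : ℝ) * β) +
        ∑ r ∈ (Fa Q).erase r₀, Hc m c r.2 r.1 *
          ∑ x ∈ Ioc 0 u, ee ((x : ℝ) * ((-(b / q : ℝ) + β) + r.2 / r.1)) := by
      rw [h95_gm_sum, ← add_sum_erase _ _ hr₀m]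
      congr 2
      refine sum_congr rfl fun x _ => ?_
      congr 1
      simp only [hr₀]
      ring
    have hfin : ∑ x ∈ Ioc 0 u, ((fw m c x : ℂ) - gm m c Q x) * ee (x * α) =
        (∑ x ∈ Ioc 0 u, (fw m c x : ℂ) * ee (x * (-(b / q : ℝ) + β)) -
          Hc m c b q * ∑ x ∈ Ioc 0 u, ee ((x : ℝ) * β)) -
        ∑ r ∈ (Fa Q).erase r₀, Hc m c r.2 r.1 *
          ∑ x ∈ Ioc 0 u, ee ((x : ℝ) * ((-(b / q : ℝ) + β) + r.2 / r.1)) := by
      rw [hsum (fun x => (fw m c x : ℂ) - gm m c Q x)]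
      simp_rw [sub_mul]
      rw [sum_sub_distrib, hG]
      ring
    rw [hfin]
    have hQ4 : (Q : ℝ) ^ 2 * (1 / (2 * (1 / (2 * L ^ 192)))) ≤ N / L ^ 42 := by
      rw [le_div_iff₀ (by positivity)]
      calc (Q : ℝ) ^ 2 * (1 / (2 * (1 / (2 * L ^ 192)))) * L ^ 42
          ≤ L ^ 192 * (1 / (2 * (1 / (2 * L ^ 192)))) * L ^ 42 := by gcongr
        _ = L ^ 426 := by field_simp
        _ ≤ N := by nlinarith [pow_pos hL0 426]
    calc _ ≤ N / L ^ 42 + N / L ^ 42 :=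
          (norm_sub_le _ _).trans (add_le_add hf (hg.trans hQ4))
      _ = 2 * N / L ^ 42 := by ring
      _ ≤ N / L ^ 41 := by
          rw [div_le_div_iff₀ (by positivity) (by positivity)]
          have : L ^ 42 = L * L ^ 41 := by ring
          rw [this]
          have h12 : 0 < (N : ℝ) * L ^ 41 := by positivity
          nlinarith
  · -- minor arcs
    have hf := h₂ N hN2 α (by
      rintro ⟨a, q, hq, hqL, hcop, hβ⟩
      refine hM ⟨a, q, hq, ?_, hcop, hβ.trans ?_⟩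
      · rw [hQ]
        refine Nat.le_floor (hqL.trans ?_)
        exact pow_le_pow_right₀ hL1 (by norm_num)
      · exact div_le_div_of_nonneg_right (pow_le_pow_right₀ hL1 (by norm_num)) hNr.le) u hu
    have hδ : 0 < L ^ 234 / N := by positivity
    have hg := h95_sub_bound (m := m) (c := c) (Q := Q) (u := u) hm (Subset.refl (Fa Q))
      (α := α) hδ (fun r hr k => by
        by_contra hlt
        push Not at hlt
        have hr1 := h95_mem_Fa.1 hr
        refine hM ⟨(r.2 : ℤ) + (-k) * r.1, r.1, hr1.1.1, hr1.1.2, ?_, ?_⟩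
        · exact IsCoprime.add_mul_right_left (Nat.isCoprime_iff_coprime.2 hr1.2.2) (-k)
        · have hr0 : (r.1 : ℝ) ≠ 0 := by exact_mod_cast hr1.1.1.ne'
          have : α + (((r.2 : ℤ) + (-k) * r.1 : ℤ) : ℝ) / r.1 = α + r.2 / r.1 - k := by
            push_cast
            field_simp
            ring
          rw [this]
          exact hlt.le)
    have hfin : ∑ x ∈ Ioc 0 u, ((fw m c x : ℂ) - gm m c Q x) * ee (x * α) =
        ∑ x ∈ Ioc 0 u, (fw m c x : ℂ) * ee (x * α) -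
        ∑ r ∈ Fa Q, Hc m c r.2 r.1 * ∑ x ∈ Ioc 0 u, ee ((x : ℝ) * (α + r.2 / r.1)) := by
      rw [← h95_gm_sum]
      simp_rw [sub_mul]
      rw [sum_sub_distrib]
    rw [hfin]
    have hQ4 : (Q : ℝ) ^ 2 * (1 / (2 * (L ^ 234 / N))) ≤ N / L ^ 42 := by
      calc (Q : ℝ) ^ 2 * (1 / (2 * (L ^ 234 / N))) ≤ L ^ 192 * (1 / (2 * (L ^ 234 / N))) := by
            gcongr
        _ = (1 / 2) * (N / L ^ 42) := by field_simp
        _ ≤ N / L ^ 42 := by
            have : 0 < N / L ^ 42 := by positivity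
            linarith
    calc _ ≤ N / L ^ 42 + N / L ^ 42 :=
          (norm_sub_le _ _).trans (add_le_add hf (hg.trans hQ4))
      _ = 2 * N / L ^ 42 := by ring
      _ ≤ N / L ^ 41 := by
          rw [div_le_div_iff₀ (by positivity) (by positivity)]
          have : L ^ 42 = L * L ^ 41 := by ring
          rw [this]
          have h12 : 0 < (N : ℝ) * L ^ 41 := by positivity
          nlinarith


theorem EAC : EAC_stmt := by
  intro m c hm hc
  obtain ⟨N₀, h⟩ := EAC_close m c (h61.fw_major_of siegel_walfisz 42 234 m c hm hc) hm hc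
  exact ⟨N₀, fun N hN α => h N hN α N le_rfl⟩

end Pool.Agent.EP
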